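import Pool.Agent.helper80.HM.SpecA

/-! # hm:EET: arithmetic of the parameters -/

set_option autoImplicit false

namespace Pool.Agent.HM

open Finset Pool.Agent.helper33.Mod

theorem EET : EET_stmt := by
  intro M a t S k c σ l L N h
  have ha := h.ha
  have hS := h.hS
  have hσ := h.hσ
  have hl := h.hl
  have hL := h.hL
  have hc := h.hc
  have hk := h.hk
  have hN := h.hN
  have hσ1 : 1 ≤ σ := by
    rcases Nat.eq_zero_or_pos σ with h0 | h0
    · rw [h0] at hσ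
      simp at hσ
      omega
    · exact h0
  have hl2 : 2 ≤ l := by
    rw [hl]
    have h1 : 1 ≤ (t + 1) ^ 2 := Nat.one_le_pow _ _ (by omega)
    nlinarith
  have hL2 : 2 * l ≤ L := by
    rw [hL]
    exact Nat.mul_le_mul_right l (by omega)
  have hLL : L ≤ L ^ 2 := by nlinarith
  have hc0 : 0 < c := by nlinarith
  have hLk : L < k := by omega
  have hcR : (0 : ℝ) < c := by exact_mod_cast hc0
  have hσR : (2 : ℝ) * S ≤ 2 ^ σ := by exact_mod_cast hσ
  have hNR : (8 : ℝ) * S * (M + 1) ^ L * c ^ l ≤ 2 ^ N := by exact_mod_cast hN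
  refine ⟨?_, ?_, hc0, hLk, hl2, hL2, ?_, hσ1, ?_, ?_, ?_, ?_, ?_⟩
  · intro z hz
    have h1 : (c : ℝ) ^ z ≤ c ^ l := pow_le_pow_right₀ (by exact_mod_cast hc0) hz
    have h2 : (0 : ℝ) < c ^ M := pow_pos hcR M
    have h3 : (0 : ℝ) ≤ S * (M + 1 : ℝ) ^ L := by positivity
    have h4 : (S : ℝ) * (M + 1 : ℝ) ^ L * c ^ l * (1 / 2) ^ N ≤ 1 / 8 := by
      rw [one_div_pow, mul_one_div, div_le_iff₀ (by positivity)]
      linarith
    unfold ET
    calc (c : ℝ) ^ z * (S * ((M + 1 : ℝ) ^ L * ((1 / 2) ^ N * (c : ℝ) ^ M)))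
        = ((S * (M + 1 : ℝ) ^ L) * c ^ z * (1 / 2) ^ N) * c ^ M := by ring
      _ ≤ ((S * (M + 1 : ℝ) ^ L) * c ^ l * (1 / 2) ^ N) * c ^ M := by
          gcongr
      _ ≤ 1 / 8 * (c : ℝ) ^ M := mul_le_mul_of_nonneg_right h4 h2.le
  · rw [div_le_iff₀ (by positivity)]
    have h1 : (2 * l) ^ 2 ≤ L ^ 2 := Nat.pow_le_pow_left hL2 2
    have h2 : (2 * l) ^ 2 ≤ c := by omega
    have h3 : (2 * (l : ℝ)) ^ 2 ≤ c := by exact_mod_cast h2
    have h4 : 16 * (2 * l) ^ 2 ≤ c := by omega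
    have h5 : 16 * (2 * (l : ℝ)) ^ 2 ≤ c := by exact_mod_cast h4
    linarith
  · by_contra hcon
    have h1 : N ≤ 2 := by omega
    have h2 : 2 ^ N ≤ 2 ^ 2 := Nat.pow_le_pow_right (by norm_num) h1
    have h3 : 1 ≤ S * (M + 1) ^ L * c ^ l := Nat.mul_pos (Nat.mul_pos (by omega) (by positivity)) (by positivity)
    have h4 : 8 * S * (M + 1) ^ L * c ^ l = 8 * (S * (M + 1) ^ L * c ^ l) := by ring
    omega
  · intro d
    unfold Ld
    rw [hl]
    have h1 : (t - d) * (t * σ) ≤ t * (t * σ) := Nat.mul_le_mul_right _ (Nat.sub_le t d)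
    have h2 : t * (t * σ) ≤ (t + 1) ^ 2 * σ := by
      have : (t + 1) ^ 2 * σ = t * (t * σ) + (2 * t * σ + σ) := by ring
      omega
    have h3 : 2 * (t + 1) ^ 2 * σ = 2 * ((t + 1) ^ 2 * σ) := by ring
    omega
  · intro d hd
    unfold Ld
    obtain ⟨e, rfl⟩ := Nat.exists_eq_add_of_le hd
    have e1 : d + 1 + e - (d + 1) = e := by omega
    have e2 : d + 1 + e - d = e + 1 := by omega
    rw [e1, e2]
    ring
  · intro d hd
    unfold tau
    obtain ⟨e, rfl⟩ := Nat.exists_eq_add_of_le hd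
    have e1 : d + 1 + e - (d + 1) = e := by omega
    have e2 : d + 1 + e - d = e + 1 := by omega
    rw [e1, e2]
    have e3 : ((1 : ℝ) / 2) ^ (1 + (e + 1) * σ) = (1 / 2) ^ (1 + e * σ) * (1 / 2 ^ σ) := by
      rw [← one_div_pow, ← pow_add]
      congr 1
      ring
    rw [e3]
    have h1 : (0 : ℝ) < (1 / 2) ^ (1 + e * σ) := by positivity
    have h2 : (2 : ℝ) * S * (1 / 2 ^ σ) ≤ 1 := by
      rw [mul_one_div, div_le_one (by positivity)]
      exact hσR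
    calc (S : ℝ) * (2 * ((1 / 2) ^ (1 + e * σ) * (1 / 2 ^ σ))) = (2 * S * (1 / 2 ^ σ)) * (1 / 2) ^ (1 + e * σ) := by ring
      _ ≤ 1 * (1 / 2) ^ (1 + e * σ) := mul_le_mul_of_nonneg_right h2 h1.le
      _ = _ := one_mul _
  · intro d
    unfold tau
    have h1 : (t - d) * σ ≤ t * σ := Nat.mul_le_mul_right _ (Nat.sub_le t d)
    have h2 : σ + t * σ ≤ 2 * l := by
      rw [hl]
      have : 2 * (2 * (t + 1) ^ 2 * σ) = σ + t * σ + (3 * σ + 7 * t * σ + 4 * t ^ 2 * σ) := by ring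
      omega
    obtain ⟨r, hr⟩ : ∃ r, 2 * l = σ + (t - d) * σ + r := Nat.exists_eq_add_of_le (by omega)
    have e1 : ((1 : ℝ) / 4) ^ l = (1 / 2) ^ (2 * l) := by
      rw [pow_mul]
      norm_num
    rw [e1, hr, pow_add, pow_add, pow_add, pow_one]
    have h3 : (2 : ℝ) * S * (1 / 2) ^ σ ≤ 1 := by
      rw [one_div_pow, mul_one_div, div_le_one (by positivity)]
      exact hσR
    have h4 : (0 : ℝ) < (1 / 2) ^ ((t - d) * σ) := by positivity
    have h5 : ((1 : ℝ) / 2) ^ r ≤ 1 := pow_le_one₀ (by norm_num) (by norm_num)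
    have h6 : (0 : ℝ) < (1 / 2) ^ r := by positivity
    calc (S : ℝ) * ((1 / 2) ^ σ * (1 / 2) ^ ((t - d) * σ) * (1 / 2) ^ r)
        = (2 * S * (1 / 2) ^ σ) * (1 / 2) ^ r * (1 / 2 * (1 / 2) ^ ((t - d) * σ)) := by ring
      _ ≤ 1 * 1 * (1 / 2 * (1 / 2) ^ ((t - d) * σ)) := by
          gcongr
      _ = _ := by ring
  · intro d
    unfold tau
    rw [pow_add, pow_one]
    have h5 : ((1 : ℝ) / 2) ^ ((t - d) * σ) ≤ 1 := pow_le_one₀ (by norm_num) (by norm_num)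
    linarith

end Pool.Agent.HM
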