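import Pool.Agent.helper80.HM.SpecC

/-! # hm:SHN: Shannon expansion -/

set_option autoImplicit false

namespace Pool.Agent.HM

open Finset Pool.Agent.helper38.Neg Pool.Agent.helper55.NT

theorem SHN_aux {n : ℕ} (F : Set (Fn n)) : ∀ (d : ℕ) (u : Fin d → Fn n)
    (φ : (Fin d → Bool) → Bool), (∀ j, u j ∈ F) →
    Rel F (5 * 2 ^ d - 4) (5 * 2 ^ d - 4) {fun x => φ fun j => u j x} := by
  intro d
  induction d with
  | zero =>
    intro u φ _
    refine (Rel.const F (φ fun j => j.elim0)).mono le_rfl ?_ (by norm_num) (by norm_num)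
    rintro g rfl
    change _ = _
    funext x
    congr 1
    funext j
    exact j.elim0
  | succ d ih =>
    intro u φ hu
    set f1 : Fn n := fun x => φ (Fin.cons true fun j => u j.succ x) with hf1
    set f0 : Fn n := fun x => φ (Fin.cons false fun j => u j.succ x) with hf0
    have h1 := ih (fun j => u j.succ) (fun v => φ (Fin.cons true v)) (fun j => hu _)
    have h0 := ih (fun j => u j.succ) (fun v => φ (Fin.cons false v)) (fun j => hu _)
    have h10 := h1.union h0
    have hn : Rel (F ∪ ({f1} ∪ {f0})) 1 1 {fun x => !(u 0 x)} := Rel.not (Or.inl (hu 0))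
    have k1 := h10.trans hn
    have ha : Rel (F ∪ (({f1} ∪ {f0}) ∪ {fun x => !(u 0 x)})) 1 0 {fun x => u 0 x && f1 x} :=
      Rel.and (Or.inl (hu 0)) (Or.inr (Or.inl (Or.inl rfl)))
    have k2 := k1.trans ha
    have hb : Rel (F ∪ ((({f1} ∪ {f0}) ∪ {fun x => !(u 0 x)}) ∪ {fun x => u 0 x && f1 x})) 1 0
        {fun x => !(u 0 x) && f0 x} :=
      Rel.and (Or.inr (Or.inl (Or.inr rfl))) (Or.inr (Or.inl (Or.inl (Or.inr rfl))))
    have k3 := k2.trans hb
    have hc : Rel (F ∪ (((({f1} ∪ {f0}) ∪ {fun x => !(u 0 x)}) ∪ {fun x => u 0 x && f1 x}) ∪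
        {fun x => !(u 0 x) && f0 x})) 1 0 {fun x => (u 0 x && f1 x) || (!(u 0 x) && f0 x)} :=
      Rel.or (Or.inr (Or.inl (Or.inr rfl))) (Or.inr (Or.inr rfl))
    have k4 := k3.trans' hc
    have hp : 1 ≤ 2 ^ d := Nat.one_le_two_pow
    refine k4.mono le_rfl ?_ (by rw [pow_succ]; omega) (by rw [pow_succ]; omega)
    rintro g rfl
    change _ = _
    funext x
    have e1 : (fun j => u j x) = Fin.cons (u 0 x) fun j : Fin d => u j.succ x := by
      funext j
      refine Fin.cases ?_ (fun i => ?_) j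
      · rfl
      · rfl
    rw [e1, hf1, hf0]
    cases h : u 0 x <;> simp

theorem SHN : SHN_stmt := by
  intro n d F u φ hu
  exact (SHN_aux F d u φ hu).mono le_rfl le_rfl (Nat.sub_le _ _) (Nat.sub_le _ _)

end Pool.Agent.HM
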